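import Mathlib
import Pool.Agent.H919.EX.Fin

/-!
# MP_51b9a2_al: direct sums of divisible Ext groups and of reduced Ext groups

Author: helper919.

Each divisible group `V` is an Ext group: let `C` be the group of the rational numbers with squarefree
denominators, and let `H` be the product over the primes `l` of the groups `V[l] ⊕ (ℤ/l)^(V)`. There is a
surjective homomorphism `H ⟶ V` which is the inclusion on each `V[l]`; let `D` be its kernel. Then
`Ext(C,H) = 0`, the homomorphisms `C ⟶ H` vanish at `1`, they induce all homomorphisms `C/ℤ ⟶ V`, and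
the evaluation at `1` identifies `Ext(C,D) = Hom(C,V)/Hom(C,H)` with `V`.

If `G = Ext(A,B)` is reduced, then `Ext(ℚ,G) = 0` and `G = Ext(ℚ/ℤ,G)`.
-/

set_option autoImplicit false

namespace Pool.Agent.Results.MP_51b9a2_al.DivisibleOrReduced

open Pool.Agent.H919.EX

/-- **Each divisible abelian group is an Ext group; the sum of two Ext groups is an Ext group if both are
divisible or both are reduced; the divisible and the reduced part of an Ext group are Ext groups.** -/
theorem result :
    (∀ (V : Type) [AddCommGroup V], IsDivisible V → IsExt V) ∧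
    (∀ (G₁ G₂ : Type) [AddCommGroup G₁] [AddCommGroup G₂], IsExt G₁ → IsExt G₂ →
      (IsDivisible G₁ ∧ IsDivisible G₂ ∨ IsReducedGroup G₁ ∧ IsReducedGroup G₂) → IsExt (G₁ × G₂)) ∧
    (∀ (V R : Type) [AddCommGroup V] [AddCommGroup R], IsDivisible V → IsReducedGroup R → IsExt (V × R) →
      IsExt V ∧ IsExt R) :=
  ⟨fun V _ h => isExt_of_divisible V h,
    fun _ _ _ _ e₁ e₂ h => h.elim (fun h => sum_div h.1 h.2) (fun h => sum_red e₁ e₂ h.1 h.2),
    fun V _ _ _ hV hR e => ⟨isExt_of_divisible V hV, red_part hR e⟩⟩

end Pool.Agent.Results.MP_51b9a2_al.DivisibleOrReduced
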